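import Mathlib

namespace Pool.Agent.H.MP_76005e_an

open Set Cardinal Finset Function

universe u

variable {𝕜 : Type} [RCLike 𝕜] {X : Type u} [NormedAddCommGroup X] [NormedSpace 𝕜 X]

theorem exists_sup {J : Type*} [Nonempty J] (p : J → Seminorm 𝕜 X) (C : ℝ)
    (h : ∀ j x, p j x ≤ C * ‖x‖) :
    ∃ N : Seminorm 𝕜 X, (∀ j x, p j x ≤ N x) ∧ ∀ x b, (∀ j, p j x ≤ b) → N x ≤ b := by
  have hb : ∀ x, BddAbove (Set.range fun j => p j x) := fun x =>
    ⟨C * ‖x‖, by rintro _ ⟨j, rfl⟩; exact h j x⟩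
  have hB : BddAbove (Set.range p) := Seminorm.bddAbove_range_iff.mpr hb
  refine ⟨⨆ j, p j, fun j x => ?_, fun x b hx => ?_⟩
  · rw [Seminorm.iSup_apply hB]; exact le_ciSup (hb x) j
  · rw [Seminorm.iSup_apply hB]; exact ciSup_le hx

theorem exists_dist (q : Seminorm 𝕜 X) (Z : Submodule 𝕜 X) :
    ∃ P : Seminorm 𝕜 X, (∀ x, ∀ z ∈ Z, P x ≤ q (x - z)) ∧
      ∀ x b, (∀ z ∈ Z, b ≤ q (x - z)) → b ≤ P x := by
  have hb : ∀ x, BddBelow (Set.range fun z : Z => q (x - z)) := fun x =>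
    ⟨0, by rintro _ ⟨z, rfl⟩; exact apply_nonneg _ _⟩
  refine ⟨Seminorm.ofSMulLE (fun x => ⨅ z : Z, q (x - z)) ?_ ?_ ?_, fun x z hz =>
    ciInf_le (hb x) ⟨z, hz⟩, fun x b h => le_ciInf fun z => h z z.2⟩
  · exact le_antisymm ((ciInf_le (hb 0) 0).trans (by simp)) (le_ciInf fun _ => apply_nonneg _ _)
  · intro x y
    refine le_ciInf_add_ciInf fun z w => (ciInf_le (hb _) (z + w)).trans ?_
    refine le_trans (le_of_eq ?_) (map_add_le_add q _ _)
    congr 1
    push_cast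
    abel
  · intro r x
    rw [Real.mul_iInf_of_nonneg (norm_nonneg r)]
    refine le_ciInf fun z => (ciInf_le (hb _) (r • z)).trans (le_of_eq ?_)
    rw [← map_smul_eq_mul, smul_sub]
    rfl

/-- small norming families, monotone in the generating set -/
theorem exists_norming : ∃ N : Set X → Set (X →L[𝕜] 𝕜), Monotone N ∧ (∀ S, (N S).Nonempty) ∧
    (∀ S, #(N S) ≤ max ℵ₀ #S) ∧ (∀ S, ∀ g ∈ N S, ‖g‖ ≤ 1) ∧
    ∀ S, ∀ v ∈ Submodule.span 𝕜 S, ∀ b, (∀ g ∈ N S, ‖g v‖ ≤ b) → ‖v‖ ≤ b := by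
  choose G hG1 hG2 using fun v : X => exists_dual_vector'' 𝕜 v
  let c := TopologicalSpace.denseSeq 𝕜
  have hc : DenseRange c := TopologicalSpace.denseRange_denseSeq 𝕜
  let E : Set X → AddSubmonoid X := fun S =>
    AddSubmonoid.closure (Set.range fun p : ℕ × S => c p.1 • p.2.1)
  refine ⟨fun S => G '' E S, fun S T h => image_mono (AddSubmonoid.closure_mono ?_),
    fun S => ⟨_, 0, zero_mem _, rfl⟩, fun S => mk_image_le.trans ?_, ?_, fun S v hv b hb => ?_⟩
  · rintro _ ⟨p, rfl⟩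
    exact ⟨(p.1, ⟨p.2.1, h p.2.2⟩), rfl⟩
  · have : (E S : Set X) ⊆ Set.range fun l : List (ℕ × S) => (l.map fun p => c p.1 • p.2.1).sum := by
      intro x hx
      induction hx using AddSubmonoid.closure_induction with
      | mem x hx => obtain ⟨p, rfl⟩ := hx; exact ⟨[p], by simp⟩
      | zero => exact ⟨[], rfl⟩
      | add x y _ _ h1 h2 =>
        obtain ⟨l, rfl⟩ := h1
        obtain ⟨l', rfl⟩ := h2
        exact ⟨l ++ l', by simp⟩
    refine (mk_le_mk_of_subset this).trans (mk_range_le.trans ((mk_list_le_max _).trans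
      (max_le (le_max_left _ _) ?_)))
    rw [mk_prod, mk_nat, lift_aleph0, lift_uzero]
    exact mul_le_max_of_aleph0_le_left le_rfl
  · rintro S _ ⟨v, -, rfl⟩
    exact hG1 v
  · have h1 : ∀ a : 𝕜, a • v ∈ (E S).topologicalClosure := by
      clear hb
      induction hv using Submodule.span_induction with
      | mem x hx =>
        intro a
        refine hc.induction_on (p := fun a => a • x ∈ (E S).topologicalClosure) a
          ((E S).isClosed_topologicalClosure.preimage (by fun_prop)) fun n => ?_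
        exact (E S).le_topologicalClosure (AddSubmonoid.subset_closure ⟨(n, ⟨x, hx⟩), rfl⟩)
      | zero => intro a; rw [smul_zero]; exact zero_mem _
      | add x y _ _ h1 h2 => intro a; rw [smul_add]; exact add_mem (h1 a) (h2 a)
      | smul r x _ h => intro a; rw [smul_smul]; exact h _
    have h2 := h1 1
    rw [one_smul] at h2
    refine le_of_forall_pos_le_add fun ε hε => ?_
    obtain ⟨w, hw, hd⟩ := Metric.mem_closure_iff.mp h2 (ε / 2) (by positivity)
    rw [dist_eq_norm] at hd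
    have h3 := hb _ ⟨w, hw, rfl⟩
    have h4 : ‖G w w‖ = ‖w‖ := by rw [hG2]; simp
    have h5 : ‖G w (v - w)‖ ≤ ‖v - w‖ := ((G w).le_opNorm _).trans
      (mul_le_of_le_one_left (norm_nonneg _) (hG1 w))
    have h6 : ‖G w w‖ ≤ ‖G w v‖ + ‖G w (v - w)‖ := by
      rw [map_sub]; simpa using norm_sub_le (G w v) (G w v - G w w)
    have h7 : ‖v‖ ≤ ‖w‖ + ‖v - w‖ := by simpa using norm_add_le w (v - w)
    linarith

open Classical in
/-- the bad norm -/
theorem bad {ι : Type u} [Nonempty ι] (x : ι × ℕ → X) (F : ι × ℕ → X →L[𝕜] 𝕜) (C η : ℝ) (h L : ℕ)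
    (hL : 2 ≤ L) (hη : h * (L * η) ≤ 1) (hx : ∀ i, ‖x i‖ ≤ 1) (hF : ∀ i, ‖F i‖ ≤ C)
    (hδ : ∀ i j, ‖F i (x j) - if i = j then 1 else 0‖ ≤ η) :
    ∃ p : Seminorm 𝕜 X, (∀ v, (L : ℝ)⁻¹ * ‖v‖ ≤ p v ∧ p v ≤ ((L : ℝ)⁻¹ + h * C) * ‖v‖) ∧
      (∀ (j : ℕ) (s : Finset ι) (θ : ι → 𝕜), s.card ≤ L → (∀ a, ‖θ a‖ = 1) →
        p (∑ a ∈ s, θ a • x (a, j)) ≤ 3) ∧
      ∀ a : ℕ → ι, (h : ℝ) / 2 ≤ p (∑ j ∈ range h, x (a j, j)) := by
  have hη0 : 0 ≤ η := (norm_nonneg _).trans (hδ (Classical.arbitrary _) (Classical.arbitrary _))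
  have hL' : (2 : ℝ) ≤ L := by exact_mod_cast hL
  have hb : ∀ i v, ‖F i v‖ ≤ C * ‖v‖ := fun i v =>
    ((F i).le_opNorm v).trans (mul_le_mul_of_nonneg_right (hF i) (norm_nonneg _))
  choose s hs1 hs2 using fun j : ℕ => exists_sup
    (fun a : ι => (normSeminorm 𝕜 𝕜).comp (F (a, j) : X →ₗ[𝕜] 𝕜)) C fun a v => hb _ v
  have hp : ∀ v, (((L : NNReal)⁻¹ • normSeminorm 𝕜 X + ∑ j ∈ range h, s j : Seminorm 𝕜 X)) v =
      (L : ℝ)⁻¹ * ‖v‖ + ∑ j ∈ range h, s j v := fun v => by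
    simp [NNReal.smul_def]
  refine ⟨(L : NNReal)⁻¹ • normSeminorm 𝕜 X + ∑ j ∈ range h, s j, fun v => ?_,
    fun j0 t θ ht hθ => ?_, fun a => ?_⟩ <;> rw [hp]
  · refine ⟨le_add_of_nonneg_right (sum_nonneg fun _ _ => apply_nonneg _ _), ?_⟩
    have := sum_le_card_nsmul (range h) (fun j => s j v) (C * ‖v‖) fun j _ =>
      hs2 j v _ fun a => hb _ v
    rw [card_range, nsmul_eq_mul] at this
    linarith
  · have ht' : (t.card : ℝ) ≤ L := by exact_mod_cast ht
    have h1 : ‖∑ a ∈ t, θ a • x (a, j0)‖ ≤ L := by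
      refine (norm_sum_le _ _).trans ((sum_le_card_nsmul _ _ 1 fun a _ => ?_).trans (by simpa))
      rw [norm_smul, hθ, one_mul]; exact hx _
    have h2 : ∀ j, s j (∑ a ∈ t, θ a • x (a, j0)) ≤ (if j = j0 then 1 else 0) + L * η := fun j =>
      hs2 j _ _ fun b => by
        change ‖F (b, j) _‖ ≤ _
        rw [map_sum]
        refine (norm_sum_le _ _).trans ((sum_le_sum (g := fun a =>
          (if (b, j) = (a, j0) then 1 else 0) + η) fun a _ => ?_).trans ?_)
        · rw [map_smul, norm_smul, hθ, one_mul]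
          have := norm_add_le (if (b, j) = (a, j0) then (1 : 𝕜) else 0)
            (F (b, j) (x (a, j0)) - if (b, j) = (a, j0) then 1 else 0)
          rw [add_sub_cancel] at this
          refine this.trans (add_le_add (le_of_eq ?_) (hδ _ _))
          split_ifs <;> simp
        · rw [Finset.sum_add_distrib, Finset.sum_const, nsmul_eq_mul]
          refine add_le_add ?_ (mul_le_mul_of_nonneg_right ht' hη0)
          by_cases e : j = j0
          · simp only [e, Prod.mk.injEq, and_true, sum_ite_eq]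
            split_ifs <;> simp
          · simp [e]
    have h3 := sum_le_sum fun j (_ : j ∈ range h) => h2 j
    rw [Finset.sum_add_distrib, sum_ite_eq', Finset.sum_const, card_range, nsmul_eq_mul] at h3
    have h4 : (L : ℝ)⁻¹ * ‖∑ a ∈ t, θ a • x (a, j0)‖ ≤ 1 := by
      rw [inv_mul_le_iff₀ (by positivity), mul_one]; exact h1
    have h5 : (if j0 ∈ range h then (1 : ℝ) else 0) ≤ 1 := by split_ifs <;> simp
    linarith
  · have h1 : ∀ j ∈ range h, 1 / 2 ≤ s j (∑ k ∈ range h, x (a k, k)) := fun j hj => by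
      refine le_trans ?_ (hs1 j (a j) _)
      change _ ≤ ‖F (a j, j) _‖
      have e : F (a j, j) (∑ k ∈ range h, x (a k, k)) - 1 =
          ∑ k ∈ range h, (F (a j, j) (x (a k, k)) - if (a j, j) = (a k, k) then 1 else 0) := by
        rw [sum_sub_distrib, map_sum, sum_eq_single j (fun k _ hk => if_neg fun e =>
          hk (congrArg Prod.snd e).symm) (fun h' => absurd hj h'), if_pos rfl]
      have h2 := (norm_sum_le _ _).trans (sum_le_card_nsmul (range h) _ η fun k _ =>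
        hδ (a j, j) (a k, k))
      rw [← e, card_range, nsmul_eq_mul] at h2
      have h3 := norm_sub_norm_le (1 : 𝕜) (F (a j, j) (∑ k ∈ range h, x (a k, k)))
      rw [norm_sub_rev, norm_one] at h3
      nlinarith [mul_nonneg (Nat.cast_nonneg h : (0 : ℝ) ≤ h) hη0]
    have h2 := card_nsmul_le_sum _ _ _ h1
    rw [card_range, nsmul_eq_mul] at h2
    have : 0 ≤ (L : ℝ)⁻¹ * ‖∑ j ∈ range h, x (a j, j)‖ := by positivity
    linarith

/-- families with bounded unimodular sums are small on all but finitely many indices -/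
theorem fin_big {ι : Type u} (y : ι → X) (L : ℕ) (hL : 0 < L) (K : ℝ)
    (h : ∀ (s : Finset ι) (θ : ι → 𝕜), s.card ≤ L → (∀ a, ‖θ a‖ = 1) → ‖∑ a ∈ s, θ a • y a‖ ≤ K)
    (g : X →L[𝕜] 𝕜) (hg : ‖g‖ ≤ 1) : {a | K / L < ‖g (y a)‖}.Finite := by
  by_contra hi
  obtain ⟨s, hs, hc⟩ := Set.Infinite.exists_subset_card_eq hi L
  choose θ hθ1 hθ2 using fun a => RCLike.exists_norm_eq_mul_self (g (y a))
  have h1 := ((g.le_opNorm _).trans (mul_le_of_le_one_left (norm_nonneg _) hg)).trans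
    (h s θ hc.le hθ1)
  have h2 : g (∑ a ∈ s, θ a • y a) = ((∑ a ∈ s, ‖g (y a)‖ : ℝ) : 𝕜) := by
    rw [map_sum, RCLike.ofReal_sum]
    exact sum_congr rfl fun a _ => by rw [map_smul, hθ2, smul_eq_mul]
  rw [h2, RCLike.norm_ofReal, abs_of_nonneg (sum_nonneg fun _ _ => norm_nonneg _)] at h1
  have h3 := sum_lt_sum_of_nonempty (card_pos.mp (hc ▸ hL)) fun a (ha : a ∈ s) =>
    (show K / L < ‖g (y a)‖ from hs ha)
  rw [Finset.sum_const, hc, nsmul_eq_mul, mul_div_cancel₀ _ (by positivity)] at h3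
  linarith

theorem small_union {ι : Type u} (hι : ℵ₀ < #ι) {N : Set (X →L[𝕜] 𝕜)} (hN : #N < #ι)
    (A : (X →L[𝕜] 𝕜) → Set ι) (hA : ∀ g ∈ N, (A g).Finite) : #(⋃ g : N, A g) < #ι :=
  (mk_iUnion_le _).trans_lt (mul_lt_of_lt hι.le hN ((ciSup_le' fun g : N =>
    (hA g.1 g.2).lt_aleph0.le).trans_lt hι))

end Pool.Agent.H.MP_76005e_an
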