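import Mathlib
import Pool.Agent.H.MP_76005e_an.A

namespace Pool.Agent.H.MP_76005e_an

open Set Cardinal Finset Function

universe u

variable {𝕜 : Type} [RCLike 𝕜] {X : Type u} [NormedAddCommGroup X] [NormedSpace 𝕜 X]

theorem msum {J : Type*} (q : Seminorm 𝕜 X) (s : Finset J) (f : J → X) :
    q (∑ i ∈ s, f i) ≤ ∑ i ∈ s, q (f i) :=
  le_sum_of_subadditive q (map_zero q).le (map_add_le_add q) s f

open Classical in
/-- the good norm -/
theorem good {ι : Type u} [LinearOrder ι] [Nonempty ι] (Z : ι → Submodule 𝕜 X)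
    (q : ι → Seminorm 𝕜 X) (hq : ∀ β v, q β v ≤ ‖v‖) (hZ : Monotone Z)
    (hqm : ∀ β β', β ≤ β' → ∀ v, q β v ≤ q β' v) (hn : ∀ β, ∀ v ∈ Z β, ‖v‖ ≤ q β v) (m : ℕ)
    (hm : 0 < m) : ∃ N : Seminorm 𝕜 X, (∀ v, (m : ℝ)⁻¹ * ‖v‖ ≤ N v ∧ N v ≤ 1 * ‖v‖) ∧
      ∀ (β : ℕ → ι) (y z : ℕ → X) (ε : ℝ), Monotone β → (∀ k, q (β k) (y k) ≤ ε) →
        (∀ k, z k ∈ Z (β (k + 1))) → (∀ k, ‖y k - z k‖ ≤ ε) →
        (∀ K, (∀ k, K ≤ ‖y k‖) → (K / 2 - (m + 2) * ε) / 2 ≤ N (∑ k ∈ range m, y k)) ∧
        ∀ K (h : ℕ), 2 * h ≤ m → (∀ k, ‖y k‖ ≤ K) → N (∑ k ∈ range h, y k) ≤ K + h * ε := by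
  choose P hP1 hP2 using fun a b : ι => exists_dist (q b) (Z a)
  have hP0 : ∀ a b v, P a b v ≤ q b v := fun a b v => by simpa using hP1 a b v 0 (zero_mem _)
  have hm' : (1 : ℝ) ≤ m := by exact_mod_cast hm
  let val : ℕ × {γ : ℕ → ι // Monotone γ} → Seminorm 𝕜 X := fun c =>
    ((c.1 : NNReal) + m)⁻¹ • (normSeminorm 𝕜 X + ∑ i ∈ range c.1, P (c.2.1 i) (c.2.1 (i + 1)))
  have hval : ∀ c v, val c v =
      (‖v‖ + ∑ i ∈ range c.1, P (c.2.1 i) (c.2.1 (i + 1)) v) / (c.1 + m) := fun c v => by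
    simp [val, NNReal.smul_def, div_eq_inv_mul, mul_add]
  have : Nonempty {γ : ℕ → ι // Monotone γ} := ⟨⟨fun _ => Classical.arbitrary _, monotone_const⟩⟩
  have hv1 : ∀ c v, val c v ≤ 1 * ‖v‖ := fun c v => by
    have := sum_le_card_nsmul (range c.1) _ ‖v‖ fun i _ =>
      (hP0 (c.2.1 i) (c.2.1 (i + 1)) v).trans (hq _ _)
    rw [card_range, nsmul_eq_mul] at this
    rw [hval, div_le_iff₀ (by positivity)]
    nlinarith [norm_nonneg v]
  obtain ⟨N, hN1, hN2⟩ := exists_sup val 1 hv1
  refine ⟨N, fun v => ⟨?_, hN2 _ _ fun c => hv1 c v⟩, fun β y z ε hβ h1 h2 h3 =>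
    ⟨fun K hK => ?_, fun K h hh hK => hN2 _ _ fun c => ?_⟩⟩
  · have := hN1 (0, Classical.arbitrary _) v
    rw [hval] at this
    simpa [div_eq_inv_mul] using this
  · have hε : 0 ≤ ε := (norm_nonneg _).trans (h3 0)
    have key : ∀ k ∈ range m, K / 2 - (m + 2) * ε ≤ P (β k) (β (k + 1)) (∑ i ∈ range m, y i) := by
      intro k hk
      refine hP2 _ _ _ _ fun z0 hz0 => ?_
      set w := z0 - ∑ i ∈ range m, if i < k then z i else 0 with hw
      have hwZ : w ∈ Z (β k) := sub_mem hz0 (Submodule.sum_mem _ fun i _ => by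
        split_ifs with hi
        exacts [hZ (hβ hi) (h2 i), zero_mem _])
      have e : y k - w = (∑ i ∈ range m, y i - z0) - ∑ i ∈ range m,
          (y i - (if i < k then z i else 0) - if i = k then y k else 0) := by
        rw [sum_sub_distrib, sum_sub_distrib, sum_ite_eq', if_pos hk, hw]
        abel
      have hr := (msum (q (β (k + 1))) _ _).trans (sum_le_card_nsmul (range m)
        (fun i => q (β (k + 1)) (y i - (if i < k then z i else 0) - if i = k then y k else 0)) ε
        fun i _ => by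
          rcases lt_trichotomy i k with hi | rfl | hi
          · rw [if_pos hi, if_neg hi.ne, sub_zero]; exact (hq _ _).trans (h3 i)
          · simpa using hε
          · rw [if_neg hi.not_gt, if_neg hi.ne', sub_zero, sub_zero]
            exact (hqm _ _ (hβ hi) _).trans (h1 i))
      rw [card_range, nsmul_eq_mul] at hr
      have a1 := map_sub_le_add (q (β (k + 1))) (∑ i ∈ range m, y i - z0) (∑ i ∈ range m,
          (y i - (if i < k then z i else 0) - if i = k then y k else 0))
      rw [← e] at a1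
      have a2 := hn _ _ (sub_mem (h2 k) (hZ (hβ k.le_succ) hwZ))
      have a3 := map_sub_le_add (q (β (k + 1))) (y k - w) (y k - z k)
      rw [show y k - w - (y k - z k) = z k - w by abel] at a3
      have a4 := (hq (β (k + 1)) _).trans (h3 k)
      have a5 := hn _ _ hwZ
      have a6 := map_sub_le_add (q (β k)) (y k) (y k - w)
      rw [sub_sub_cancel] at a6
      have a7 := hqm _ _ (hβ k.le_succ) (y k - w)
      have a8 := norm_add₃_le (a := y k - z k) (b := z k - w) (c := w)
      rw [show y k - z k + (z k - w) + w = y k by abel] at a8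
      linarith [h1 k, h3 k, hK k]
    have a1 := card_nsmul_le_sum _ _ _ key
    rw [card_range, nsmul_eq_mul] at a1
    refine le_trans ?_ (hN1 (m, ⟨β, hβ⟩) _)
    rw [hval, le_div_iff₀ (by positivity)]
    have := norm_nonneg (∑ i ∈ range m, y i)
    dsimp only
    linarith
  · obtain ⟨n, γ, hγ⟩ := c
    have hε : 0 ≤ ε := (norm_nonneg _).trans (h3 0)
    have hK0 : 0 ≤ K := (norm_nonneg _).trans (hK 0)
    have a1 := (norm_sum_le _ _).trans (sum_le_card_nsmul (range h) _ K fun k _ => hK k)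
    rw [card_range, nsmul_eq_mul] at a1
    have a2 : ∀ i ∈ range n, P (γ i) (γ (i + 1)) (∑ k ∈ range h, y k) ≤
        ∑ k ∈ range h, (ε + if γ i < β (k + 1) ∧ β k < γ (i + 1) then K else 0) := fun i _ =>
      (msum _ _ _).trans (sum_le_sum fun k _ => by
        split_ifs with hc
        · exact (((hP0 _ _ _).trans (hq _ _)).trans (hK k)).trans (le_add_of_nonneg_left hε)
        · rw [add_zero]
          rcases not_and_or.mp hc with hc | hc
          · exact ((hP1 _ _ _ _ (hZ (not_lt.mp hc) (h2 k))).trans (hq _ _)).trans (h3 k)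
          · exact ((hP0 _ _ _).trans (hqm _ _ (not_lt.mp hc) _)).trans (h1 k))
    have a3 := sum_le_sum a2
    rw [← sum_product', Finset.sum_add_distrib, Finset.sum_const, card_product, card_range,
      card_range, ← sum_filter, Finset.sum_const, nsmul_eq_mul, nsmul_eq_mul] at a3
    have a4 : ((range n ×ˢ range h).filter fun p =>
        γ p.1 < β (p.2 + 1) ∧ β p.2 < γ (p.1 + 1)).card ≤ (range (n + h)).card := by
      refine card_le_card_of_injOn (fun p => p.1 + p.2) (fun p hp => ?_) fun p hp p' hp' e => ?_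
      · simp only [coe_filter, Finset.mem_product, Finset.mem_range, mem_ofPred_eq, coe_range,
          Set.mem_Iio] at hp ⊢
        omega
      · simp only [coe_filter, mem_ofPred_eq] at hp hp'
        dsimp only at e
        rcases lt_trichotomy p.1 p'.1 with hi | hi | hi
        · exact absurd ((hp'.2.1.trans_le (hβ (show p'.2 + 1 ≤ p.2 by omega))).trans
            (hp.2.2.trans_le (hγ hi))) (lt_irrefl _)
        · exact Prod.ext hi (by omega)
        · exact absurd ((hp.2.1.trans_le (hβ (show p.2 + 1 ≤ p'.2 by omega))).trans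
            (hp'.2.2.trans_le (hγ hi))) (lt_irrefl _)
    rw [card_range] at a4
    have a5 := mul_le_mul_of_nonneg_right (Nat.cast_le (α := ℝ).mpr a4) hK0
    have a6 : (2 : ℝ) * h ≤ m := by exact_mod_cast hh
    rw [hval, div_le_iff₀ (by positivity)]
    push_cast at a3 a5
    dsimp only
    nlinarith [mul_le_mul_of_nonneg_right a6 hK0, mul_nonneg (mul_nonneg (Nat.cast_nonneg h) hε)
      (Nat.cast_nonneg (α := ℝ) m)]

end Pool.Agent.H.MP_76005e_an
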